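import Pool.Agent.Helper28_TP.StS

/-!
# CORR: the steps of the corridor
-/

set_option autoImplicit false

namespace Pool.Agent.TP.H34

open Pool.Agent.TP

variable {k : ℕ}

theorem nearB_nbr {M : ℤ} {z : ℤ × ℤ} {a : Bool} {g w : ℤ} (hg : g = 1 ∨ g = -1) {x : Pt k}
    (hu : 10 * M - w ≤ pc (10 * M) z a g x) (hu' : pc (10 * M) z a g x ≤ 10 * M + w)
    (hv : |lc (10 * M) z a x| ≤ w) : nearB (10 * M) (nbr z a g) w x := by
  have h01 : (1 : Fin (k + 2)) ≠ 0 := (Fin.zero_ne_one).symm
  cases a <;>
  · simp only [pc, lc, nearB, cen, nbr, axi, h01, if_true, if_false, Bool.not_true,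
      Bool.not_false, Bool.false_eq_true, abs_le] at hu hu' hv ⊢
    rcases hg with rfl | rfl
    · refine ⟨⟨?_, ?_⟩, ⟨?_, ?_⟩⟩ <;> nlinarith [hv.1, hv.2]
    · refine ⟨⟨?_, ?_⟩, ⟨?_, ?_⟩⟩ <;> nlinarith [hv.1, hv.2]

theorem pc_sub (D : ℤ) (z : ℤ × ℤ) (a : Bool) (g : ℤ) (x b : Pt k) :
    g * (x (axi k a) - b (axi k a)) = pc D z a g x - pc D z a g b := by
  unfold pc
  ring

theorem lc_sub (D : ℤ) (z : ℤ × ℤ) (a : Bool) (x b : Pt k) :
    x (axi k (!a)) - b (axi k (!a)) = lc D z a x - lc D z a b := by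
  unfold lc
  ring

/-- Box part of a window in plane coordinates. -/
theorem box_uv {D n : ℤ} {z : ℤ × ℤ} {a : Bool} {g : ℤ} (hg : g = 1 ∨ g = -1) {x b : Pt k}
    (h : |x 0 - b 0| ≤ n ∧ |x 1 - b 1| ≤ n) :
    |pc D z a g x - pc D z a g b| ≤ n ∧ |lc D z a x - lc D z a b| ≤ n := by
  rw [← pc_sub, ← lc_sub]
  cases a
  · have h1 : |x (axi k false) - b (axi k false)| ≤ n := h.1
    refine ⟨?_, h.2⟩
    rcases hg with rfl | rfl
    · simpa using h1
    · rw [abs_mul]
      simpa using h1
  · have h1 : |x (axi k true) - b (axi k true)| ≤ n := h.2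
    refine ⟨?_, h.1⟩
    rcases hg with rfl | rfl
    · simpa using h1
    · rw [abs_mul]
      simpa using h1

theorem inT_uv {D m n : ℤ} {z : ℤ × ℤ} {a : Bool} {g t : ℤ} {x b : Pt k}
    (h : inT m n b a g t x) :
    n + 1 ≤ pc D z a g x - pc D z a g b ∧ pc D z a g x - pc D z a g b ≤ n + 2 * m + 1 ∧
      0 ≤ t * (lc D z a x - lc D z a b) ∧ t * (lc D z a x - lc D z a b) ≤ n := by
  unfold inT at h
  rw [pc_sub D z, lc_sub D z] at h
  exact h

theorem abs_of_t {t v n : ℤ} (ht : t = 1 ∨ t = -1) (h0 : 0 ≤ t * v) (h1 : t * v ≤ n) :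
    |v| ≤ n := by
  rw [abs_le]
  rcases ht with rfl | rfl
  · constructor <;> linarith
  · constructor <;> linarith

theorem Post_mono {N : Finset (Pt k)} {p ε : ℝ} {m n : ℕ} {z : ℤ × ℤ} {a : Bool} {g : ℤ}
    {i j : ℕ} (hij : i ≤ j) {s s' : St k} (h : Post N p ε m n z a g i s s') :
    Post N p ε m n z a g j s s' := by
  refine ⟨h.ok, h.rc, h.sub, h.cov, h.covR, ?_, h.adj⟩
  intro v l hvl
  obtain ⟨h1, h2⟩ := h.keep v l hvl
  refine ⟨h1, ?_⟩
  rcases h2 with h2 | ⟨i', hi', h2⟩
  · exact Or.inl h2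
  · exact Or.inr ⟨i', lt_of_lt_of_le hi' hij, h2⟩

/-- Invariant of the corridor. -/
structure Inv (N : Finset (Pt k)) (p ε : ℝ) (m n : ℕ) (z : ℤ × ℤ) (a : Bool) (g : ℤ)
    (s : St k) (u₀ : ℤ) (i : ℕ) (s₁ : St k) (b : Pt k) : Prop where
  post : Post N p ε m n z a g i s s₁
  seed : bx b m ⊆ s₁.R
  ulow : Ms m n + i * Ms m n ≤ pc (10 * Ms m n) z a g b
  u0 : u₀ ≤ pc (10 * Ms m n) z a g b
  uhi : pc (10 * Ms m n) z a g b ≤ 10 * Ms m n
  lat : |lc (10 * Ms m n) z a b| ≤ Ms m n
  oth : ∀ j, j ≠ 0 → j ≠ 1 → |b j| ≤ n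
  new : ∀ x ∈ s₁.R ∪ s₁.E, x ∈ s.R ∪ s.E ∨
    (pc (10 * Ms m n) z a g x ≤ pc (10 * Ms m n) z a g b + m)
  tier : ∀ x ∈ s₁.R ∪ s₁.E, nearB (10 * Ms m n) (nbr z a g) (4 * Ms m n) x →
    Tier m n (pc (10 * Ms m n) z a g x - pc (10 * Ms m n) z a g b)
      (lc (10 * Ms m n) z a x - lc (10 * Ms m n) z a b) ∧ |lc (10 * Ms m n) z a x| ≤ Ms m n + n

theorem corr (h : OneStmt) : CorrStmt := by
  intro k N ρ p ε m n δ hN hmn hδ hδ' hSt Reg C F X Λ s z a g hV hval hzC hg hz hzC' hzF
    Φ βS βF hS hSF h1 h2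
  have hM : Ms m n = (n : ℤ) + m + 1 := rfl
  have hmn' : 4 * (m : ℤ) + 4 ≤ n := by exact_mod_cast hmn
  have hm0 : (0 : ℤ) ≤ m := by positivity
  have hMp : 0 < Ms m n := by rw [hM]; linarith
  obtain ⟨b₀, t1, t2, t3, t4, t5, t6⟩ := hval.tube z hzC a g hg hz hzC' hzF
  -- stopping
  have hstop : ∀ (i : ℕ) (s₁ : St k) (b : Pt k), i ≤ 9 →
      Inv N p ε m n z a g s (pc (10 * Ms m n) z a g b₀) i s₁ b →
      9 * Ms m n < pc (10 * Ms m n) z a g b → PSt Λ KK s₁ Φ ≤ βS := by
    intro i s₁ b hi hI hb
    exact h1 s₁ b ⟨Post_mono (by omega) hI.post, hI.seed, hb, hI.uhi, hI.lat, hI.oth, hI.tier⟩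
  -- chain
  have key : ∀ (r i : ℕ) (s₁ : St k) (b : Pt k), i + r = 9 →
      Inv N p ε m n z a g s (pc (10 * Ms m n) z a g b₀) i s₁ b →
      PSt Λ KK s₁ Φ ≤ (1 - r * δ) * βS + r * δ * βF := by
    intro r
    induction r with
    | zero =>
      intro i s₁ b hi hI
      have hi' : i = 9 := by omega
      subst hi'
      have := hI.ulow
      push_cast at this
      have h3 := hstop 9 s₁ b le_rfl hI (by linarith)
      simpa using h3
    | succ r ih =>
      intro i s₁ b hi hI
      have hrδ : 0 ≤ (r : ℝ) * δ := by positivity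
      have hr1 : (r : ℝ) * δ ≤ 1 := by
        have : (r : ℝ) ≤ 16 := by
          have : r ≤ 16 := by omega
          exact_mod_cast this
        nlinarith
      by_cases hb : 9 * Ms m n < pc (10 * Ms m n) z a g b
      · have h3 := hstop i s₁ b (by omega) hI hb
        push_cast
        have h4 : 0 ≤ ((r : ℝ) + 1) * δ := by positivity
        nlinarith [mul_nonneg h4 (sub_nonneg.2 hSF)]
      · rw [not_lt] at hb
        have hul := hI.ulow
        have hi9 : i ≤ 8 := by
          by_contra hc
          have : (9 : ℤ) ≤ i := by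
            have : 9 ≤ i := by omega
            exact_mod_cast this
          nlinarith
        have hul' : Ms m n ≤ pc (10 * Ms m n) z a g b := by
          have : (0 : ℤ) ≤ (i : ℤ) * Ms m n := by positivity
          linarith
        obtain ⟨t, ht, htv⟩ : ∃ t : ℤ, (t = 1 ∨ t = -1) ∧
            ((t = -1 ∧ 0 < lc (10 * Ms m n) z a b) ∨ (t = 1 ∧ lc (10 * Ms m n) z a b ≤ 0)) := by
          by_cases hc : 0 < lc (10 * Ms m n) z a b
          · exact ⟨-1, Or.inr rfl, Or.inl ⟨rfl, hc⟩⟩
          · exact ⟨1, Or.inl rfl, Or.inr ⟨rfl, not_lt.1 hc⟩⟩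
        have hlat := hI.lat
        rw [abs_le] at hlat
        -- the window in plane coordinates
        have hWuv : ∀ x : Pt k, inW m n b a g t x →
            -(n : ℤ) ≤ pc (10 * Ms m n) z a g x - pc (10 * Ms m n) z a g b ∧
            pc (10 * Ms m n) z a g x - pc (10 * Ms m n) z a g b ≤ n + 2 * m + 1 ∧
            |lc (10 * Ms m n) z a x - lc (10 * Ms m n) z a b| ≤ n := by
          intro x hx
          rcases hx with hx | hx
          · obtain ⟨e1, e2⟩ := box_uv (D := 10 * Ms m n) (z := z) (a := a) hg hx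
            rw [abs_le] at e1
            exact ⟨e1.1, by linarith [e1.2], e2⟩
          · obtain ⟨e1, e2, e3, e4⟩ := inT_uv (D := 10 * Ms m n) (z := z) hx
            exact ⟨by linarith, e2, abs_of_t ht e3 e4⟩
        have hlatW : ∀ x : Pt k, inW m n b a g t x → |lc (10 * Ms m n) z a x| ≤ Ms m n + n := by
          intro x hx
          have e3 := (hWuv x hx).2.2
          rw [abs_le] at e3 ⊢
          constructor <;> linarith [e3.1, e3.2, hlat.1, hlat.2]
        have hfin := h k N ρ p ε m n δ hN hmn hδ hδ' hSt Reg C F X Λ s s₁ z a g b a g t i hV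
          hval hg hz hzC' hzF hg ht (by omega) hI.post hI.seed hI.oth ?_ ?_ Φ
          ((1 - r * δ) * βS + r * δ * βF) βF ?_ ?_ ?_ ?_
        · refine hfin.trans ?_
          push_cast
          have h5 : 0 ≤ (r : ℝ) * δ * δ * (βF - βS) :=
            mul_nonneg (mul_nonneg hrδ hδ) (sub_nonneg.2 hSF)
          nlinarith [h5]
        · -- the window lies in the region of the edge
          intro x hxj hx
          obtain ⟨e1, e2, e3⟩ := hWuv x hx
          have e4 := hlatW x hx
          refine ⟨by linarith, by linarith, e4.trans (by linarith), fun _ => e4, hxj⟩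
        · -- the target is empty
          intro x hx hxT
          have hxW : inW m n b a g t x := Or.inr hxT
          have e4 := hlatW x hxW
          obtain ⟨e1, e2, -, -⟩ := inT_uv (D := 10 * Ms m n) (z := z) hxT
          rcases hI.new x hx with hx' | hx'
          · by_cases h6 : pc (10 * Ms m n) z a g x < 6 * Ms m n
            · have := hI.u0
              exact t6 x hx' ⟨by linarith, by linarith, h6, e4.trans (by linarith)⟩
            · rw [not_lt] at h6
              exact hval.z4 _ hz hzC' hzF x hx' (nearB_nbr hg (by linarith) (by linarith)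
                (e4.trans (by linarith)))
          · linarith
        · have : 0 ≤ 1 - (r : ℝ) * δ := by linarith
          have h7 := mul_nonneg this hS
          have h8 := mul_nonneg hrδ (hS.trans hSF)
          linarith
        · nlinarith [mul_nonneg (sub_nonneg.2 hr1) (sub_nonneg.2 hSF)]
        · -- the next state
          intro s₂ b' hP' hsub hcov hb' hc1 hc2 hc3 hc4
          refine ih (i + 1) s₂ b' (by omega) ?_
          rw [pc_sub (10 * Ms m n) z] at hc1
          rw [lc_sub (10 * Ms m n) z] at hc2 hc3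
          have hv' : |lc (10 * Ms m n) z a b' - lc (10 * Ms m n) z a b| ≤ n - m :=
            abs_of_t ht (by linarith) hc3
          refine ⟨hP', hb', ?_, ?_, by linarith, ?_, hc4, ?_, ?_⟩
          · push_cast
            linarith
          · linarith [hI.u0]
          · rw [abs_le]
            rcases htv with ⟨rfl, hc⟩ | ⟨rfl, hc⟩
            · constructor <;> linarith [hlat.1, hlat.2]
            · constructor <;> linarith [hlat.1, hlat.2]
          · intro x hx
            rcases hcov x hx with h3 | h3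
            · rcases hI.new x h3 with h4 | h4
              · exact Or.inl h4
              · exact Or.inr (by linarith)
            · obtain ⟨e1, e2, e3⟩ := hWuv x h3
              exact Or.inr (by linarith)
          · intro x hx hxn
            rcases hcov x hx with h3 | h3
            · obtain ⟨e1, e2⟩ := hI.tier x h3 hxn
              refine ⟨Or.inl ?_, e2⟩
              rcases e1 with e1 | e1 | e1
              · linarith
              · linarith [e1.1]
              · linarith [e1.1]
            · refine ⟨?_, hlatW x h3⟩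
              rcases h3 with h3 | h3
              · obtain ⟨e1, e2⟩ := box_uv (D := 10 * Ms m n) (z := z) (a := a) hg h3
                refine Or.inr (Or.inl ⟨?_, ?_⟩)
                · rw [abs_le] at e1
                  linarith [e1.2]
                · rw [abs_le] at e2 hv' ⊢
                  constructor <;> linarith [e2.1, e2.2, hv'.1, hv'.2]
              · obtain ⟨e1, e2, e3, e4⟩ := inT_uv (D := 10 * Ms m n) (z := z) h3
                refine Or.inr (Or.inr ⟨by linarith, ?_⟩)
                rw [abs_le]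
                rcases ht with rfl | rfl
                · constructor <;> linarith
                · constructor <;> linarith
        · intro s₂ hP'
          exact h2 s₂ (Post_mono (by omega) hP')
  -- the initial state
  have hinit : Inv N p ε m n z a g s (pc (10 * Ms m n) z a g b₀) 0 s b₀ := by
    refine ⟨⟨hval.ok, hval.rc, Finset.Subset.refl _, fun x hx => Or.inl hx,
      fun x hx => Or.inl hx, fun v j hvj => absurd rfl hvj, fun v hv => Or.inl hv⟩, t1, ?_,
      le_rfl, by linarith, t4, t5, fun x hx => Or.inl hx, ?_⟩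
    · push_cast
      linarith
    · intro x hx hxn
      exact absurd hxn (hval.z4 _ hz hzC' hzF x hx)
  have h9 := key 9 0 s b₀ rfl hinit
  push_cast at h9
  nlinarith [mul_nonneg hδ (sub_nonneg.2 hSF)]

end Pool.Agent.TP.H34
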